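import Pool.Agent.Helper37K9.CO.NotCo

/-!
# Components of the singular locus of a coisotropic variety need not be coisotropic

Let `K` be an algebraically closed field of characteristic zero. In the Grassmannian `Gr(1, P^6)` of
the lines in `P^6` there is an irreducible coisotropic subvariety `Σ` such that some irreducible
component `S` of its singular locus is not coisotropic. This answers Q1 in the negative.

Let `H` be the hyperplane `x₆ = 0` of `P^6`. The variety `Σ` is a hypersurface of `Gr(1, H)`, and so
of codimension `3` in `Gr(1, P^6)`: in the chart of the lines through the points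
`m₀ = (1, 0, a₀, a₁, a₂, a₃, 0)` and `m₁ = (0, 1, b₀, b₁, b₂, b₃, 0)` it has the equation
`f² = g³`, where `f = a₀ + b₁` and `g = a₂ + b₃`. The component `S` is the closure of `f = g = 0`, of
codimension `4` in `Gr(1, P^6)`.

The two facts behind the example:

* Every irreducible hypersurface `Σ` of `Gr(1, H)` is coisotropic as a subvariety of `Gr(1, P^6)`. The
  conormal space at a smooth point `L` contains the two-dimensional space `h ⊗ L`, where `h` is the
  equation of `H`, and so it is spanned by `h ⊗ m₀`, `h ⊗ m₁` and one more homomorphism
  `ψ = c₀ ⊗ m₀ + c₁ ⊗ m₁`, for a basis `m₀, m₁` of `L`. For `ε ≠ 0` the space spanned by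
  `(h - ε c₀) ⊗ m₀`, `(h - ε c₁) ⊗ m₁` and `h ⊗ (m₀ + m₁)` contains `ψ`, and its limit for `ε → 0` is
  the conormal space.
* The conormal space of `S` at the origin of the chart is spanned by `h ⊗ m₀`, `h ⊗ m₁`,
  `x₂ ⊗ m₀ + x₃ ⊗ m₁` and `x₄ ⊗ m₀ + x₅ ⊗ m₁`. The linear forms which occur in it span a space of
  dimension `5`, whereas for spaces which are spanned by four homomorphisms of rank one this
  dimension is at most `4`, and this is a closed condition.

The definitions (`Pool/Agent/Helper37K9/CO/Defs.lean`): the points of `Gr(l, P^n)` are the subspaces `L`
of `K^(n+1)` of dimension `k = l + 1`. A polynomial in `k` vectors vanishes at `L` (`Van`) if it is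
zero at all bases of `L`. `cl k Z` is the Zariski closure of `Z` in the Grassmannian; `IsVar k Z`:
`Z` is an irreducible closed set. `Tan k Z L` is the tangent space of `Z` at `L`, defined by all
polynomials which vanish on `Z` (a tangent vector `L → W / L` is given by an endomorphism of `W`);
`Con k Z L` is its annihilator in `Hom(W / L, L)`, the endomorphisms which vanish on `L` and have
their image in `L`. `Smooth k Z L`: the dimension of `Con k Z L` is the largest possible for points of
`Z`, that is, the dimension of the tangent space is the smallest possible; `Sing k Z` is the set of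
the other points of `Z`; `IsComp k S T`: `S` is an irreducible component of `T`. `RankOne c L` is the
set of the subspaces of `Hom(W / L, L)` of dimension `c` which are spanned by homomorphisms of rank
one, and `Coisotropic k Z`: for all smooth points `L` of `Z`, with `c` the dimension of `Con k Z L`,
`Con k Z L` is in the Zariski closure of `RankOne c L`, in the Grassmannian of the `c`-dimensional
spaces of endomorphisms.
-/

set_option autoImplicit false

namespace Pool.Agent.Results.MP_4a09cd_ag.SingularLoci

open Pool.Agent.Helper37K9.CO

/-- **The singular locus of a coisotropic variety can have components which are not coisotropic.**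
Let `K` be an algebraically closed field of characteristic zero. There are an irreducible coisotropic
subvariety `Σ` of the Grassmannian `Gr(1, P^6)` of the two-dimensional subspaces of `K^7`, of
codimension `3` (the dimension of the conormal space at the smooth points), and an irreducible
component `S` of the singular locus of `Σ`, of codimension `4`, which is not coisotropic. -/
theorem result (K : Type) [Field K] [IsAlgClosed K] [CharZero K] :
    ∃ Sig S : Set (Submodule K (Fin 7 → K)),
      IsVar 2 Sig ∧ Coisotropic 2 Sig ∧ IsComp 2 S (Sing 2 Sig) ∧ ¬ Coisotropic 2 S ∧
        (∀ L, Smooth 2 Sig L → Module.finrank K (Con 2 Sig L) = 3) ∧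
        (∀ L, Smooth 2 S L → Module.finrank K (Con 2 S L) = 4) := by
  have : Infinite K := IsAlgClosed.instInfinite
  refine ⟨Pool.Agent.Helper37K9.CO.Sig K, SS K, Sig_var, Sig_coiso, SS_comp, SS_not_coiso,
    fun L hL => finrank_smooth hL, fun L hL => ?_⟩
  obtain ⟨hm, hli⟩ := four_le (mO_ch (K := K)) (add_zero _) (add_zero _)
  exact le_antisymm (SS_dim4 hL.1)
    ((le_finrank_of_li _ hm hli).trans (hL.2 _ (subset_cl S0_dim mO_mem)))

end Pool.Agent.Results.MP_4a09cd_ag.SingularLoci
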